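import Pool.Agent.H674R2.UF

/-!
Statement (a) does not imply the scheme of `Π¹₁` comprehension, even over ACA0: an omega-model.
-/

namespace Pool.Agent.Results.MP_660a49_lc.SquareTestNotPiCA

open Pool.Agent.Helper317.SOA Pool.Agent.Helper317.PM H674.UD

theorem result : ∃ S : Set (Set ℕ), RCA0 (omega S) ∧ ACA (omega S) ∧ TestA S ∧
    ¬ Pi11CA (omega S) := by
  obtain ⟨S, h1, h2, h3, _, h5⟩ := H674.UF.main
  exact ⟨S, h1, h2, h3, h5⟩

end Pool.Agent.Results.MP_660a49_lc.SquareTestNotPiCA
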